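import Pool.Agent.W25.UB.Stm

/-! Project UB: St_FT2, the interaction of the model forms is small -/

set_option autoImplicit false

namespace Pool.Agent.W924.UB.FT2

open Finset
open Pool.Agent.W25.UN Pool.Agent.W25.UB
open Pool.Agent.H362R2.CM (IP prP)
open Pool.Agent.H410R2 (mulc)

theorem prod_sub_le {ι : Type} [DecidableEq ι] (S : Finset ι) (a b M : ι → ℝ)
    (ha : ∀ t, |a t| ≤ M t) (hb : ∀ t, |b t| ≤ M t) :
    |∏ s ∈ S, a s - ∏ s ∈ S, b s| ≤
      ∑ t ∈ S, ∏ s ∈ S, (if s = t then |a s - b s| else M s) := by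
  have hM : ∀ t, 0 ≤ M t := fun t => (abs_nonneg _).trans (ha t)
  induction S using Finset.induction_on with
  | empty => simp
  | insert x S hx ih =>
    rw [Finset.prod_insert hx, Finset.prod_insert hx, Finset.sum_insert hx,
      Finset.prod_insert hx, if_pos rfl]
    have e1 : ∏ s ∈ S, (if s = x then |a s - b s| else M s) = ∏ s ∈ S, M s := by
      refine Finset.prod_congr rfl fun s hs => ?_
      rw [if_neg]
      rintro rfl
      exact hx hs
    have e2 : ∑ t ∈ S, ∏ s ∈ insert x S, (if s = t then |a s - b s| else M s) =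
        M x * ∑ t ∈ S, ∏ s ∈ S, (if s = t then |a s - b s| else M s) := by
      rw [Finset.mul_sum]
      refine Finset.sum_congr rfl fun t ht => ?_
      rw [Finset.prod_insert hx, if_neg]
      rintro rfl
      exact hx ht
    rw [e1, e2]
    have h1 : |∏ s ∈ S, a s| ≤ ∏ s ∈ S, M s := by
      rw [Finset.abs_prod]
      exact Finset.prod_le_prod (fun _ _ => abs_nonneg _) fun s _ => ha s
    calc |a x * ∏ s ∈ S, a s - b x * ∏ s ∈ S, b s|
        = |(a x - b x) * ∏ s ∈ S, a s + b x * (∏ s ∈ S, a s - ∏ s ∈ S, b s)| := by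
          congr 1; ring
      _ ≤ |(a x - b x) * ∏ s ∈ S, a s| + |b x * (∏ s ∈ S, a s - ∏ s ∈ S, b s)| :=
          abs_add_le _ _
      _ ≤ _ := by
          rw [abs_mul, abs_mul]
          exact add_le_add (mul_le_mul_of_nonneg_left h1 (abs_nonneg _))
            (mul_le_mul (hb x) ih (abs_nonneg _) (hM x))

theorem sum_sum_prod {ι κ : Type} [Fintype ι] [DecidableEq ι] [Fintype κ]
    (F : ι → κ → κ → ℝ) :
    ∑ σ : ι → κ, ∑ τ : ι → κ, ∏ t, F t (σ t) (τ t) = ∏ t, ∑ a, ∑ b, F t a b := by
  have h1 : ∀ σ : ι → κ, ∑ τ : ι → κ, ∏ t, F t (σ t) (τ t) = ∏ t, ∑ b, F t (σ t) b := by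
    intro σ
    rw [Finset.prod_univ_sum, Fintype.piFinset_univ]
  rw [Finset.sum_congr rfl fun σ _ => h1 σ, Finset.prod_univ_sum, Fintype.piFinset_univ]

section

variable {J : Type} [Fintype J] [DecidableEq J]

/-- local weight -/
noncomputable def lw (p : ℝ) : Option J → ℝ
  | none => 1
  | some _ => 1 / (p - 1)

/-- local bound -/
noncomputable def Mx (p : ℝ) : Option J → Option J → ℝ
  | none, none => 1
  | none, some _ => 1
  | some _, none => 1
  | some j, some l => if j = l then p - 1 else 1

/-- local bound of the difference -/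
noncomputable def Df (p : ℝ) : Option J → Option J → ℝ
  | none, none => 0
  | none, some _ => 1
  | some _, none => 1
  | some j, some l => if j = l then p - 1 else 2

theorem sumM {p : ℝ} (hp : 2 ≤ p - 1) :
    ∑ a : Option J, ∑ b : Option J, lw p a * lw p b * Mx p a b ≤
      1 + (3 * (Fintype.card J : ℝ) + (Fintype.card J : ℝ) ^ 2) / (p - 1) := by
  have hp0 : 0 < p - 1 := by linarith
  set n : ℝ := (Fintype.card J : ℝ) with hn
  have hn0 : 0 ≤ n := Nat.cast_nonneg _
  simp only [Fintype.sum_option, lw, Mx]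
  have h1 : ∀ j : J, ∑ l : J, 1 / (p - 1) * (1 / (p - 1)) * (if j = l then p - 1 else 1) ≤
      1 / (p - 1) + n * (1 / (p - 1)) := by
    intro j
    calc ∑ l : J, 1 / (p - 1) * (1 / (p - 1)) * (if j = l then p - 1 else 1)
        ≤ ∑ l : J, ((if j = l then 1 / (p - 1) else 0) + 1 / (p - 1)) := by
          refine Finset.sum_le_sum fun l _ => ?_
          have h2 : 1 / (p - 1) ≤ 1 := by rw [div_le_one hp0]; linarith
          have h3 : 0 ≤ 1 / (p - 1) := by positivity
          split_ifs
          · have : 1 / (p - 1) * (1 / (p - 1)) * (p - 1) = 1 / (p - 1) := by field_simp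
            rw [this]
            linarith
          · nlinarith
      _ = 1 / (p - 1) + n * (1 / (p - 1)) := by
          rw [Finset.sum_add_distrib, Finset.sum_ite_eq, Finset.sum_const, Finset.card_univ,
            nsmul_eq_mul]
          simp [hn]
  calc _ ≤ 1 * 1 * 1 + ∑ x : J, 1 * (1 / (p - 1)) * 1 +
        ∑ x : J, (1 / (p - 1) * 1 * 1 + (1 / (p - 1) + n * (1 / (p - 1)))) := by
        gcongr with j _
        exact h1 j
    _ = 1 + (3 * n + n ^ 2) / (p - 1) := by
        rw [Finset.sum_const, Finset.sum_const, Finset.card_univ, nsmul_eq_mul, nsmul_eq_mul, ← hn]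
        field_simp
        ring

theorem sumD {p : ℝ} (hp : 2 ≤ p - 1) :
    ∑ a : Option J, ∑ b : Option J, lw p a * lw p b * Df p a b ≤
      (3 * (Fintype.card J : ℝ) + 2 * (Fintype.card J : ℝ) ^ 2) / (p - 1) := by
  have hp0 : 0 < p - 1 := by linarith
  set n : ℝ := (Fintype.card J : ℝ) with hn
  have hn0 : 0 ≤ n := Nat.cast_nonneg _
  simp only [Fintype.sum_option, lw, Df]
  have h1 : ∀ j : J, ∑ l : J, 1 / (p - 1) * (1 / (p - 1)) * (if j = l then p - 1 else 2) ≤
      1 / (p - 1) + 2 * n * (1 / (p - 1)) := by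
    intro j
    calc ∑ l : J, 1 / (p - 1) * (1 / (p - 1)) * (if j = l then p - 1 else 2)
        ≤ ∑ l : J, ((if j = l then 1 / (p - 1) else 0) + 2 * (1 / (p - 1))) := by
          refine Finset.sum_le_sum fun l _ => ?_
          have h2 : 1 / (p - 1) ≤ 1 := by rw [div_le_one hp0]; linarith
          have h3 : 0 ≤ 1 / (p - 1) := by positivity
          split_ifs
          · have : 1 / (p - 1) * (1 / (p - 1)) * (p - 1) = 1 / (p - 1) := by field_simp
            rw [this]
            linarith
          · nlinarith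
      _ = 1 / (p - 1) + 2 * n * (1 / (p - 1)) := by
          rw [Finset.sum_add_distrib, Finset.sum_ite_eq, Finset.sum_const, Finset.card_univ,
            nsmul_eq_mul]
          simp only [Finset.mem_univ, if_true]
          rw [← hn]
          ring
  calc _ ≤ 1 * 1 * 0 + ∑ x : J, 1 * (1 / (p - 1)) * 1 +
        ∑ x : J, (1 / (p - 1) * 1 * 1 + (1 / (p - 1) + 2 * n * (1 / (p - 1)))) := by
        gcongr with j _
        exact h1 j
    _ = (3 * n + 2 * n ^ 2) / (p - 1) := by
        rw [Finset.sum_const, Finset.sum_const, Finset.card_univ, nsmul_eq_mul, nsmul_eq_mul, ← hn]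
        field_simp
        ring

theorem lw_nonneg {p : ℝ} (hp : 2 ≤ p - 1) (a : Option J) : 0 ≤ lw p a := by
  cases a with
  | none => exact zero_le_one
  | some j => exact div_nonneg zero_le_one (by linarith)

theorem Mx_nonneg {p : ℝ} (hp : 2 ≤ p - 1) (a b : Option J) : 0 ≤ Mx p a b := by
  cases a <;> cases b <;> simp only [Mx] <;> try exact zero_le_one
  split_ifs <;> linarith

theorem Df_nonneg {p : ℝ} (hp : 2 ≤ p - 1) (a b : Option J) : 0 ≤ Df p a b := by
  cases a <;> cases b <;> simp only [Df] <;> try norm_num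
  split_ifs <;> linarith

end

theorem main : St_FT2 := by
  classical
  intro k P c m Cc hP hCc hc
  have hp2 : ∀ t : IP P, (2 : ℝ) ≤ (prP P t : ℝ) - 1 := by
    intro t
    have h1 := (hP t.1 t.2).2
    have h2 : (3 : ℝ) ≤ ((t.1 : ℕ) : ℝ) := by exact_mod_cast h1
    show (2 : ℝ) ≤ ((t.1 : ℕ) : ℝ) - 1
    linarith
  set x : ℕ → ℝ := fun p => 9 * ((k : ℝ) + 2) ^ 2 / ((p : ℝ) - 1) with hx
  have hk0 : (0 : ℝ) ≤ k := Nat.cast_nonneg _
  have hcard : (Fintype.card (Option (Fin k)) : ℝ) = (k : ℝ) + 1 := by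
    simp
  -- local functions
  set A : IP P → Option (Option (Fin k)) → Option (Option (Fin k)) → ℝ := fun t a b =>
    if prP P t ∣ m then sg a * sg b else g1 (prP P t) a b with hA
  set B : IP P → Option (Option (Fin k)) → Option (Option (Fin k)) → ℝ := fun t a b =>
    g1 (prP P t) a b with hB
  set Dd : IP P → Option (Option (Fin k)) → Option (Option (Fin k)) → ℝ := fun t a b =>
    if prP P t ∣ m then Df (prP P t) a b else 0 with hDd
  have hBM : ∀ t a b, |B t a b| ≤ Mx (prP P t) a b := by
    intro t a b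
    have h0 := hp2 t
    rw [hB]
    cases a <;> cases b <;> simp only [g1, Mx]
    · rw [abs_one]
    · rw [abs_zero]; exact zero_le_one
    · rw [abs_zero]; exact zero_le_one
    · split_ifs
      · rw [abs_of_nonneg (by linarith)]
      · rw [abs_neg, abs_one]
  have hAM : ∀ t a b, |A t a b| ≤ Mx (prP P t) a b := by
    intro t a b
    have h0 := hp2 t
    rw [hA]
    simp only
    by_cases hd : prP P t ∣ m
    · rw [if_pos hd]
      cases a <;> cases b <;> simp only [sg, Mx]
      · rw [mul_one, abs_one]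
      · rw [one_mul, abs_neg, abs_one]
      · rw [mul_one, abs_neg, abs_one]
      · rw [neg_one_mul, neg_neg, abs_one]
        split_ifs
        · linarith
        · exact le_rfl
    · rw [if_neg hd]
      exact hBM t a b
  have hAB : ∀ t a b, |A t a b - B t a b| ≤ Dd t a b := by
    intro t a b
    have h0 := hp2 t
    rw [hA, hB, hDd]
    simp only
    by_cases hd : prP P t ∣ m
    · rw [if_pos hd, if_pos hd]
      cases a <;> cases b <;> simp only [sg, Df, g1]
      · simp
      · simp
      · simp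
      · split_ifs
        · rw [abs_le]
          constructor <;> linarith
        · norm_num
    · rw [if_neg hd, if_neg hd, sub_self, abs_zero]
  -- the weights
  have hw : ∀ σ : IP P → Option (Option (Fin k)),
      mulc (prP P) (fun p => 1 / ((p : ℝ) - 1)) σ = ∏ t, lw (prP P t) (σ t) := by
    intro σ
    unfold mulc
    refine Finset.prod_congr rfl fun t _ => ?_
    cases h : σ t with
    | none => simp [lw]
    | some j => simp [lw]
  have hwn : ∀ σ : IP P → Option (Option (Fin k)), 0 ≤ ∏ t, lw (prP P t) (σ t) := fun σ =>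
    Finset.prod_nonneg fun t _ => lw_nonneg (hp2 t) _
  have hdiff : Q1g P c m - Q1f (prP P) c =
      ∑ σ, ∑ τ, c σ * c τ * (∏ t, A t (σ t) (τ t) - ∏ t, B t (σ t) (τ t)) := by
    unfold Q1g Q1f
    rw [← Finset.sum_sub_distrib]
    refine Finset.sum_congr rfl fun σ _ => ?_
    rw [← Finset.sum_sub_distrib]
    refine Finset.sum_congr rfl fun τ _ => ?_
    rw [mul_sub]
  rw [hdiff]
  have hstep1 : |∑ σ, ∑ τ, c σ * c τ * (∏ t, A t (σ t) (τ t) - ∏ t, B t (σ t) (τ t))| ≤
      ∑ σ : IP P → Option (Option (Fin k)), ∑ τ : IP P → Option (Option (Fin k)),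
        Cc ^ 2 * ∑ t : IP P, ∏ s : IP P,
          (lw (prP P s) (σ s) * lw (prP P s) (τ s) *
            (if s = t then Dd s (σ s) (τ s) else Mx (prP P s) (σ s) (τ s))) := by
    refine (Finset.abs_sum_le_sum_abs _ _).trans (Finset.sum_le_sum fun σ _ => ?_)
    refine (Finset.abs_sum_le_sum_abs _ _).trans (Finset.sum_le_sum fun τ _ => ?_)
    rw [abs_mul, abs_mul]
    have h1 : |∏ t, A t (σ t) (τ t) - ∏ t, B t (σ t) (τ t)| ≤
        ∑ t : IP P, ∏ s : IP P, (if s = t then Dd s (σ s) (τ s) else
          Mx (prP P s) (σ s) (τ s)) := by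
      refine (prod_sub_le Finset.univ (fun t => A t (σ t) (τ t)) (fun t => B t (σ t) (τ t))
        (fun t => Mx (prP P t) (σ t) (τ t)) (fun t => hAM _ _ _) fun t => hBM _ _ _).trans ?_
      refine Finset.sum_le_sum fun t _ => Finset.prod_le_prod (fun s _ => ?_) fun s _ => ?_
      · split_ifs
        · exact abs_nonneg _
        · exact Mx_nonneg (hp2 s) _ _
      · split_ifs
        · exact hAB _ _ _
        · exact le_rfl
    have h2 := hc σ
    have h3 := hc τ
    rw [hw] at h2 h3
    calc |c σ| * |c τ| * |∏ t, A t (σ t) (τ t) - ∏ t, B t (σ t) (τ t)|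
        ≤ (Cc * ∏ t, lw (prP P t) (σ t)) * (Cc * ∏ t, lw (prP P t) (τ t)) *
          ∑ t : IP P, ∏ s : IP P, (if s = t then Dd s (σ s) (τ s) else
          Mx (prP P s) (σ s) (τ s)) := by
          refine mul_le_mul (mul_le_mul h2 h3 (abs_nonneg _) (mul_nonneg hCc (hwn σ))) h1
            (abs_nonneg _) (mul_nonneg (mul_nonneg hCc (hwn σ)) (mul_nonneg hCc (hwn τ)))
      _ = _ := by
          rw [Finset.mul_sum, Finset.mul_sum]
          refine Finset.sum_congr rfl fun t _ => ?_
          rw [Finset.prod_mul_distrib, Finset.prod_mul_distrib]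
          ring
  refine hstep1.trans ?_
  have hswap : ∑ σ : IP P → Option (Option (Fin k)), ∑ τ : IP P → Option (Option (Fin k)),
        Cc ^ 2 * ∑ t : IP P, ∏ s : IP P,
          (lw (prP P s) (σ s) * lw (prP P s) (τ s) *
            (if s = t then Dd s (σ s) (τ s) else Mx (prP P s) (σ s) (τ s))) =
      Cc ^ 2 * ∑ t : IP P, ∏ s : IP P, ∑ a, ∑ b, (lw (prP P s) a * lw (prP P s) b *
            (if s = t then Dd s a b else Mx (prP P s) a b)) := by
    simp only [← Finset.mul_sum]
    congr 1
    rw [Finset.sum_congr rfl fun σ _ => Finset.sum_comm, Finset.sum_comm]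
    refine Finset.sum_congr rfl fun t _ => ?_
    exact sum_sum_prod (fun s a b => lw (prP P s) a * lw (prP P s) b *
            (if s = t then Dd s a b else Mx (prP P s) a b))
  rw [hswap]
  refine mul_le_mul_of_nonneg_left ?_ (sq_nonneg _)
  -- local sums
  have hx0 : ∀ t : IP P, 0 ≤ x (prP P t) := by
    intro t
    have := hp2 t
    exact div_nonneg (by positivity) (by linarith)
  have hM1 : ∀ s : IP P, ∑ a : Option (Option (Fin k)), ∑ b : Option (Option (Fin k)),
      lw (prP P s) a * lw (prP P s) b * Mx (prP P s) a b ≤ 1 + x (prP P s) := by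
    intro s
    refine (sumM (hp2 s)).trans ?_
    have h0 : (0 : ℝ) < (prP P s : ℝ) - 1 := by linarith [hp2 s]
    have e : x (prP P s) = 9 * ((k : ℝ) + 2) ^ 2 / ((prP P s : ℝ) - 1) := rfl
    rw [e, hcard]
    have h1 : (3 * ((k : ℝ) + 1) + ((k : ℝ) + 1) ^ 2) / ((prP P s : ℝ) - 1) ≤
        9 * ((k : ℝ) + 2) ^ 2 / ((prP P s : ℝ) - 1) :=
      div_le_div_of_nonneg_right (by nlinarith) h0.le
    linarith
  have hD1 : ∀ s : IP P, ∑ a : Option (Option (Fin k)), ∑ b : Option (Option (Fin k)),
      lw (prP P s) a * lw (prP P s) b * Dd s a b ≤ if prP P s ∣ m then x (prP P s) else 0 := by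
    intro s
    rw [hDd]
    simp only
    by_cases hd : prP P s ∣ m
    · simp only [if_pos hd]
      refine (sumD (hp2 s)).trans ?_
      have h0 : (0 : ℝ) < (prP P s : ℝ) - 1 := by linarith [hp2 s]
      have e : x (prP P s) = 9 * ((k : ℝ) + 2) ^ 2 / ((prP P s : ℝ) - 1) := rfl
      rw [e, hcard]
      exact div_le_div_of_nonneg_right (by nlinarith) h0.le
    · simp only [if_neg hd, mul_zero, Finset.sum_const_zero]
      exact le_rfl
  have hM0 : ∀ s : IP P, 0 ≤ ∑ a : Option (Option (Fin k)), ∑ b : Option (Option (Fin k)),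
      lw (prP P s) a * lw (prP P s) b * Mx (prP P s) a b := fun s =>
    Finset.sum_nonneg fun a _ => Finset.sum_nonneg fun b _ =>
      mul_nonneg (mul_nonneg (lw_nonneg (hp2 s) _) (lw_nonneg (hp2 s) _)) (Mx_nonneg (hp2 s) _ _)
  have hD0 : ∀ s : IP P, 0 ≤ ∑ a : Option (Option (Fin k)), ∑ b : Option (Option (Fin k)),
      lw (prP P s) a * lw (prP P s) b * Dd s a b := fun s =>
    Finset.sum_nonneg fun a _ => Finset.sum_nonneg fun b _ =>
      mul_nonneg (mul_nonneg (lw_nonneg (hp2 s) _) (lw_nonneg (hp2 s) _)) (by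
        rw [hDd]
        simp only
        split_ifs
        · exact Df_nonneg (hp2 s) _ _
        · exact le_rfl)
  have hfin : ∀ t : IP P, ∏ s : IP P, ∑ a, ∑ b, (lw (prP P s) a * lw (prP P s) b *
            (if s = t then Dd s a b else Mx (prP P s) a b)) ≤
      (if prP P t ∣ m then x (prP P t) else 0) * ∏ s : IP P, (1 + x (prP P s)) := by
    intro t
    have e1 : ∀ s : IP P, ∑ a : Option (Option (Fin k)), ∑ b : Option (Option (Fin k)),
          (lw (prP P s) a * lw (prP P s) b *
            (if s = t then Dd s a b else Mx (prP P s) a b)) =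
        if s = t then ∑ a : Option (Option (Fin k)), ∑ b : Option (Option (Fin k)),
          lw (prP P s) a * lw (prP P s) b * Dd s a b else
          ∑ a : Option (Option (Fin k)), ∑ b : Option (Option (Fin k)),
          lw (prP P s) a * lw (prP P s) b * Mx (prP P s) a b := by
      intro s
      by_cases hs : s = t
      · simp only [if_pos hs]
      · simp only [if_neg hs]
    rw [Finset.prod_congr rfl fun s _ => e1 s]
    rw [← Finset.mul_prod_erase Finset.univ _ (Finset.mem_univ t), if_pos rfl]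
    refine mul_le_mul (hD1 t) ?_ ?_ ?_
    · calc _ ≤ ∏ s ∈ Finset.univ.erase t, (1 + x (prP P s)) := by
            refine Finset.prod_le_prod (fun s hs => ?_) fun s hs => ?_
            · rw [if_neg (Finset.ne_of_mem_erase hs)]
              exact hM0 s
            · rw [if_neg (Finset.ne_of_mem_erase hs)]
              exact hM1 s
        _ ≤ (1 + x (prP P t)) * ∏ s ∈ Finset.univ.erase t, (1 + x (prP P s)) := by
            refine le_mul_of_one_le_left (Finset.prod_nonneg fun s _ => ?_) ?_
            · linarith [hx0 s]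
            · linarith [hx0 t]
        _ = _ := Finset.mul_prod_erase Finset.univ (fun s => 1 + x (prP P s)) (Finset.mem_univ t)
    · refine Finset.prod_nonneg fun s hs => ?_
      rw [if_neg (Finset.ne_of_mem_erase hs)]
      exact hM0 s
    · split_ifs
      · exact hx0 t
      · exact le_rfl
  refine (Finset.sum_le_sum fun t _ => hfin t).trans ?_
  rw [← Finset.sum_mul]
  have e1 : ∑ t : IP P, (if prP P t ∣ m then x (prP P t) else 0) =
      ∑ p ∈ P.filter (fun p => p ∣ m), x p := by
    rw [Finset.sum_filter]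
    exact Finset.sum_coe_sort P (fun p => if p ∣ m then x p else 0)
  have e2 : ∏ s : IP P, (1 + x (prP P s)) = ∏ p ∈ P, (1 + x p) :=
    Finset.prod_coe_sort P (fun p => 1 + x p)
  rw [e1, e2]

end Pool.Agent.W924.UB.FT2
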